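import Pool.Agent.Helper75.Lin4.Lang
import Pool.Agent.Helper75.Lin.Dag

/-!
# Linear languages reduce to the grammar with four recursive rules
-/

namespace Pool.Agent.Helper75.Lin4

open Classical Pool.Agent.Helper38.LinL Pool.Agent.Helper38.LinL.LinearGrammar
open Pool.Agent.Helper75.Lin (Let4 DagStep mem_iff_dag nV Ed)

set_option linter.unusedSimpArgs false
set_option linter.unusedVariables false
set_option linter.unusedSectionVars false

section FL

variable {α : Type} {Y : Type} [Cod Y] {β γ : Type}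

/-- Lists whose length is computable and whose letters are decidable in logarithmic space. -/
structure FL (V : List α → Y → List β) : Prop where
  len : Fn fun w y => (V w y).length
  get : ∀ b, FP fun w (z : Y × ℕ) => (V w z.1)[z.2]? = some b

theorem Fn.congr' {f g : List α → Y → ℕ} (hf : Fn f) (h : ∀ w y, g w y = f w y) : Fn g := by
  have : g = f := by funext w y; exact h w y
  rw [this]; exact hf

theorem FL.congr {V V' : List α → Y → List β} (h : FL V) (hV : ∀ w y, V' w y = V w y) :
    FL V' := by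
  have : V' = V := by funext w y; exact hV w y
  rw [this]; exact h

theorem FL.const (l : List β) : FL fun (_ : List α) (_ : Y) => l := by
  refine ⟨Fn.const _, fun b => ?_⟩
  refine (FP.exFin (β := Fin l.length) (P := fun i (w : List α) (z : Y × ℕ) =>
    z.2 = i.1 ∧ l[i] = b) fun i => (FP.eq Fn.id.snd (Fn.const _)).and (FP.constP _)).congr ?_
  intro w z
  constructor
  · intro h
    obtain ⟨h1, h2⟩ := List.getElem?_eq_some_iff.1 h
    exact ⟨⟨z.2, h1⟩, rfl, h2⟩
  · rintro ⟨i, h1, h2⟩
    rw [h1]
    exact List.getElem?_eq_some_iff.2 ⟨i.2, h2⟩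

theorem FL.comp {X : Type} [Cod X] {V : List α → Y → List β} (h : FL V) {g : List α → X → Y}
    (hg : Fn g) : FL fun w x => V w (g w x) := by
  refine ⟨h.len.comp hg, fun b => ?_⟩
  exact (h.get b).comp (g := fun w (z : X × ℕ) => (g w z.1, z.2))
    ((hg.comp Fn.id.fst).pair Fn.id.snd)

theorem FL.append {V V' : List α → Y → List β} (h : FL V) (h' : FL V') :
    FL fun w y => V w y ++ V' w y := by
  refine ⟨Fn.congr' (h.len.add h'.len) fun w y => by simp, fun b => ?_⟩
  have hl : Fn fun w (z : Y × ℕ) => (V w z.1).length := h.len.comp Fn.id.fst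
  have hi : Fn fun (w : List α) (z : Y × ℕ) => z.2 := Fn.id.snd
  have h1 : FP fun w (z : Y × ℕ) => (V' w z.1)[z.2 - (V w z.1).length]? = some b :=
    (h'.get b).comp (g := fun w (z : Y × ℕ) => (z.1, z.2 - (V w z.1).length))
      (Fn.id.fst.pair (hi.sub hl))
  refine (((FP.lt hi hl).and (h.get b)).or ((FP.le hl hi).and h1)).congr fun w z => ?_
  rcases Nat.lt_or_ge z.2 (V w z.1).length with h2 | h2
  · rw [List.getElem?_append_left h2]
    have : ¬ (V w z.1).length ≤ z.2 := by omega
    simp only [h2, this, true_and, false_and, or_false]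
  · rw [List.getElem?_append_right h2]
    have : ¬ z.2 < (V w z.1).length := by omega
    simp only [h2, this, true_and, false_and, false_or]

theorem FL.map [Fintype β] {V : List α → Y → List β} (h : FL V) (g : β → γ) :
    FL fun w y => (V w y).map g := by
  refine ⟨Fn.congr' h.len fun w y => by simp, fun c => ?_⟩
  refine (FP.exFin (β := β) (P := fun b (w : List α) (z : Y × ℕ) =>
    g b = c ∧ (V w z.1)[z.2]? = some b) fun b => (FP.constP _).and (h.get b)).congr ?_
  intro w z
  rw [List.getElem?_map, Option.map_eq_some_iff]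
  constructor
  · rintro ⟨b, h1, h2⟩; exact ⟨b, h2, h1⟩
  · rintro ⟨b, h1, h2⟩; exact ⟨b, h2, h1⟩

theorem FL.reverse {V : List α → Y → List β} (h : FL V) :
    FL fun w y => (V w y).reverse := by
  refine ⟨Fn.congr' h.len fun w y => by simp, fun b => ?_⟩
  have hl : Fn fun w (z : Y × ℕ) => (V w z.1).length := h.len.comp Fn.id.fst
  have hi : Fn fun (w : List α) (z : Y × ℕ) => z.2 := Fn.id.snd
  have h1 : FP fun w (z : Y × ℕ) => (V w z.1)[(V w z.1).length - 1 - z.2]? = some b :=
    (h.get b).comp (g := fun w (z : Y × ℕ) => (z.1, (V w z.1).length - 1 - z.2))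
      (Fn.id.fst.pair ((hl.sub (Fn.const 1)).sub hi))
  refine ((FP.lt hi hl).and h1).congr fun w z => ?_
  rcases Nat.lt_or_ge z.2 (V w z.1).length with h2 | h2
  · rw [List.getElem?_reverse h2]
    simp only [h2, true_and]
  · rw [List.getElem?_eq_none (by simpa using h2)]
    have : ¬ z.2 < (V w z.1).length := by omega
    simp only [this, false_and, reduceCtorEq]

theorem getElem?_flatMap_range (F : ℕ → List β) (c : ℕ) (hF : ∀ i, (F i).length = c)
    (n m : ℕ) : ((List.range n).flatMap F)[m]? =
      if m < n * c then (F (m / c))[m % c]? else none := by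
  induction n generalizing m with
  | zero => simp
  | succ n ih =>
    have hl : ((List.range n).flatMap F).length = n * c := by
      rw [List.length_flatMap]
      simp [hF]
    rw [List.range_succ, List.flatMap_append]
    have e : List.flatMap F [n] = F n := by simp
    rw [e]
    have e2 : (n + 1) * c = n * c + c := by ring
    rw [e2]
    rcases Nat.lt_or_ge m (n * c) with h | h
    · rw [List.getElem?_append_left (by rw [hl]; exact h), ih, if_pos h, if_pos (by omega)]
    · rw [List.getElem?_append_right (by rw [hl]; exact h), hl]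
      rcases Nat.lt_or_ge m (n * c + c) with h2 | h2
      · have hc : 0 < c := by omega
        have e3 : m = n * c + (m - n * c) := by omega
        have e4 : m / c = n := by
          rw [e3, add_comm, Nat.add_mul_div_right _ _ hc, Nat.div_eq_of_lt (by omega), zero_add]
        have e5 : m % c = m - n * c := by
          conv_lhs => rw [e3]
          rw [add_comm, Nat.add_mul_mod_self_right, Nat.mod_eq_of_lt (by omega)]
        rw [if_pos h2, e4, e5]
      · rw [if_neg (by omega), List.getElem?_eq_none (by rw [hF]; omega)]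

theorem FL.bind {n Λ : List α → Y → ℕ} (hn : Fn n) (hΛ : Fn Λ) {F : List α → Y × ℕ → List β}
    (hF : FL F) (hl : ∀ w y i, (F w (y, i)).length = Λ w y) :
    FL fun w y => (List.range (n w y)).flatMap fun i => F w (y, i) := by
  refine ⟨Fn.congr' (hn.mul hΛ) fun w y => by simp [List.length_flatMap, hl], fun b => ?_⟩
  have hi : Fn fun (w : List α) (z : Y × ℕ) => z.2 := Fn.id.snd
  have hn' : Fn fun w (z : Y × ℕ) => n w z.1 := hn.comp Fn.id.fst
  have hΛ' : Fn fun w (z : Y × ℕ) => Λ w z.1 := hΛ.comp Fn.id.fst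
  have h1 : FP fun w (z : Y × ℕ) => (F w (z.1, z.2 / Λ w z.1))[z.2 % Λ w z.1]? = some b :=
    (hF.get b).comp (g := fun w (z : Y × ℕ) => ((z.1, z.2 / Λ w z.1), z.2 % Λ w z.1))
      ((Fn.id.fst.pair (hi.div hΛ')).pair (hi.mod hΛ'))
  refine ((FP.lt hi (hn'.mul hΛ')).and h1).congr fun w z => ?_
  rw [getElem?_flatMap_range _ _ (hl w z.1)]
  split_ifs with h
  · simp only [h, true_and]
  · simp only [h, false_and, reduceCtorEq]

theorem FL.rp {n : List α → Y → ℕ} (hn : Fn n) {V : List α → Y → List β} (hV : FL V) :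
    FL fun w y => rp (n w y) (V w y) := by
  unfold Lin4.rp
  exact FL.bind hn hV.len (hV.comp Fn.id.fst) fun _ _ _ => rfl

theorem FL.bt (b : Blk) : FL fun (_ : List α) (_ : Y) => bt b := FL.const _

theorem FL.wn {τ x : List α → Y → ℕ} (hτ : Fn τ) (hx : Fn x) (D : Blk) :
    FL fun w y => wn (τ w y) (x w y) D := by
  unfold Lin4.wn
  exact ((FL.rp hx (FL.bt _)).append (FL.bt _)).append
    (FL.rp ((hτ.sub (Fn.const 1)).sub hx) (FL.bt _))

end FL

section words

variable {α : Type} {Y : Type} [Cod Y]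

theorem rp_length {β : Type} (n : ℕ) (l : List β) : (rp n l).length = n * l.length := by
  unfold rp
  simp [List.length_flatMap]

theorem wn_length {τ x : ℕ} (hx : x < τ) (D : Blk) :
    (wn τ x D).length = 7 * (τ - 1) + (bt D).length := by
  unfold wn
  simp only [List.length_append, rp_length, show (bt Blk.V).length = 7 from rfl]
  omega

theorem sw_length {N : ℕ} {E : ℕ → ℕ → Prop} [∀ p q, Decidable (E p q)] (hN : 0 < N) (i : ℕ) :
    (sw N E i).length = 21 * (2 * N + 1) + 33 := by
  unfold sw
  have h : ∀ j, mkb N E (i / N / N) (i / N % N) (i % N) j < 2 * N + 2 := fun j => by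
    have := mkb_le (N := N) (E := E) (p := i / N / N) (q := i / N % N) (t := i % N) (j := j) hN
    omega
  simp only [List.length_append, wn_length (h _), show (bt Blk.C).length = 12 from rfl,
    show (bt Blk.J).length = 12 from rfl, show (bt Blk.M).length = 9 from rfl]
  omega

theorem Fn.mkb {N : List α → Y → ℕ} (hN : Fn N) {E : List α → Y × ℕ × ℕ → Prop} (hE : FP E)
    {p q t : List α → Y → ℕ} (hp : Fn p) (hq : Fn q) (ht : Fn t) (j : ℕ) :
    Fn fun w y => mkb (N w y) (fun p q => E w (y, p, q)) (p w y) (q w y) (t w y) j := by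
  unfold Lin4.mkb
  have c : ∀ m, Fn fun (_ : List α) (_ : Y) => m := fun m => Fn.const m
  have hEpq : FP fun w y => E w (y, p w y, q w y) := hE.comp (Fn.id.pair (hp.pair hq))
  have hN1 := hN.sub (c 1)
  have hnone := ((c 2).mul hN).add (c 1)
  refine Fn.ite (FP.constP _) ?_ (Fn.ite (FP.constP _) ?_ ?_)
  · exact Fn.ite (((FP.eq ht (c 0)).and (FP.lt hp hq)).and hEpq) ((c 2).mul (hN1.sub hp)) hnone
  · exact Fn.ite (FP.lt ((hp.add ht).add (c 1)) hq) (((c 2).mul ((hN1.sub hp).sub ht)).sub (c 1))
      hnone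
  · exact ((c 2).mul (hN1.sub hq)).add (c 1)

theorem FL.txt {N : List α → Y → ℕ} (hN : Fn N) (hN0 : ∀ w y, 0 < N w y)
    {E : List α → Y × ℕ × ℕ → Prop} (hE : FP E) :
    FL fun w y => txt (N w y) (fun p q => E w (y, p, q)) := by
  unfold Lin4.txt
  have hτ : Fn fun w y => 2 * N w y + 2 := ((Fn.const 2).mul hN).add (Fn.const 2)
  refine FL.append ?_ (FL.rp hτ (FL.bt _))
  refine FL.bind (Λ := fun w y => 21 * (2 * N w y + 1) + 33)
    (F := fun w (z : Y × ℕ) => sw (N w z.1) (fun p q => E w (z.1, p, q)) z.2)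
    ((hN.mul hN).mul hN)
    (((Fn.const 21).mul (((Fn.const 2).mul hN).add (Fn.const 1))).add (Fn.const 33)) ?_
    (fun w y i => sw_length (hN0 w y) i)
  unfold sw
  have hN' : Fn fun w (z : Y × ℕ) => N w z.1 := hN.comp Fn.id.fst
  have hτ' : Fn fun w (z : Y × ℕ) => 2 * N w z.1 + 2 := hτ.comp Fn.id.fst
  have hi : Fn fun (w : List α) (z : Y × ℕ) => z.2 := Fn.id.snd
  have hE' : FP fun (w : List α) (z : (Y × ℕ) × ℕ × ℕ) => E w (z.1.1, z.2.1, z.2.2) :=
    hE.comp (g := fun (w : List α) (z : (Y × ℕ) × ℕ × ℕ) => (z.1.1, z.2.1, z.2.2))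
      (Fn.id.fst.fst.pair (Fn.id.snd.fst.pair Fn.id.snd.snd))
  have hm : ∀ j, Fn fun w (z : Y × ℕ) => Lin4.mkb (N w z.1) (fun p q => E w (z.1, p, q))
      (z.2 / N w z.1 / N w z.1) (z.2 / N w z.1 % N w z.1) (z.2 % N w z.1) j := fun j =>
    Fn.mkb hN' hE' ((hi.div hN').div hN') ((hi.div hN').mod hN') (hi.mod hN') j
  exact (FL.wn hτ' (hm 0) _).append ((FL.wn hτ' (hm 1) _).append (FL.wn hτ' (hm 2) _))

theorem FL.lft {N : List α → Y → ℕ} (hN : Fn N) : FL fun w y => lft (N w y) := by
  unfold Lin4.lft lw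
  have c : ∀ m, Fn fun (_ : List α) (_ : Y) => m := fun m => Fn.const m
  have r : ∀ {n : List α → Y → ℕ}, Fn n → FL fun w y => Lin4.rp (n w y) wA := fun hn =>
    FL.rp hn (FL.const _)
  have h2N := (c 2).mul hN
  exact (r ((c 2).mul (hN.sub (c 1)))).append ((FL.rp ((hN.mul hN).mul hN)
    (((FL.const _).append (r h2N)).append (((FL.const _).append (r (h2N.sub (c 1)))).append
      ((FL.const _).append (r h2N))))).append (r (h2N.add (c 2))))

theorem FL.wrd {N : List α → Y → ℕ} (hN : Fn N) (hN0 : ∀ w y, 0 < N w y)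
    {E : List α → Y × ℕ × ℕ → Prop} (hE : FP E) :
    FL fun w y => wrd (N w y) (fun p q => E w (y, p, q)) := by
  unfold Lin4.wrd
  exact ((FL.lft hN).map tL).append ((FL.txt hN hN0 hE).map tR).reverse

/-- Reachability in acyclic graphs given by logarithmic space predicates. -/
theorem FP.dag (h : InL G4.language) {N : List α → Y → ℕ} (hN : Fn N) (hN0 : ∀ w y, 0 < N w y)
    {E : List α → Y × ℕ × ℕ → Prop} (hE : FP E) :
    FP fun w y => Relation.ReflTransGen (DagStep (N w y) fun p q => E w (y, p, q)) 0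
      (N w y - 1) := by
  have h1 := FL.wrd hN hN0 hE
  exact (FP.inL_comp h h1.len h1.get).congr fun w y => (wrd_mem (hN0 w y)).symm

end words

/-- If the language of `G4` is in `L` then so are all linear languages. -/
theorem inL_of_G4 {α : Type} {G : LinearGrammar α} (h : InL G4.language) : InL G.language := by
  refine inL_of_FP _ (fun w y => Relation.ReflTransGen (DagStep (nV G w.length)
    fun p q => Ed G w p q) 0 (nV G w.length - 1)) ?_ fun w => mem_iff_dag.symm
  refine FP.dag h (N := fun w y => nV G w.length) ?_ ?_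
    (E := fun w (z : Unit × ℕ × ℕ) => Ed G w z.2.1 z.2.2) Pool.Agent.Helper75.Lin.FP.ed
  · unfold nV
    exact ((Fn.lenSucc.mul Fn.lenSucc).mul (Fn.const _)).add (Fn.const 2)
  · intro w y
    unfold nV
    omega

end Pool.Agent.Helper75.Lin4
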