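import Pool.Agent.Helper75.Lin4.Slot

/-!
# Membership in the language of the grammar
-/

namespace Pool.Agent.Helper75.Lin4

open Pool.Agent.Helper38.LinL Pool.Agent.Helper38.LinL.LinearGrammar
open Pool.Agent.Helper75.Lin (Let4 DagStep)

set_option linter.unusedSimpArgs false
set_option linter.unusedVariables false
set_option linter.unusedSectionVars false

/-- Left letters. -/
def tL : Bool → Let4
  | false => Let4.a
  | true => Let4.b

/-- Right letters. -/
def tR : Bool → Let4
  | false => Let4.zero
  | true => Let4.one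

theorem mem_rules {A B : G4.N} {u v : List Let4} : (A, u, B, v) ∈ G4.rules ↔
    ∃ c, u = [tL c] ∧ (v = ((im1 c).map tR).reverse ∨ v = ((im2 c).map tR).reverse) := by
  have h : (A, u, B, v) ∈ G4.rules ↔
      (u = [Let4.a] ∧ v = [Let4.zero]) ∨
        (u = [Let4.a] ∧ v = [Let4.one, Let4.zero, Let4.zero]) ∨
        (u = [Let4.b] ∧ v = [Let4.one]) ∨
        (u = [Let4.b] ∧ v = [Let4.one, Let4.one, Let4.zero, Let4.zero]) := by
    change (((), u, (), v) : Unit × List Let4 × Unit × List Let4) ∈
      ({((), [Let4.a], (), [Let4.zero]),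
        ((), [Let4.a], (), [Let4.one, Let4.zero, Let4.zero]),
        ((), [Let4.b], (), [Let4.one]),
        ((), [Let4.b], (), [Let4.one, Let4.one, Let4.zero, Let4.zero])} :
        Finset (Unit × List Let4 × Unit × List Let4)) ↔ _
    simp only [Finset.mem_insert, Finset.mem_singleton, Prod.mk.injEq, true_and]
  rw [h]
  constructor
  · rintro (⟨rfl, rfl⟩ | ⟨rfl, rfl⟩ | ⟨rfl, rfl⟩ | ⟨rfl, rfl⟩)
    · exact ⟨false, rfl, Or.inl rfl⟩
    · exact ⟨false, rfl, Or.inr rfl⟩
    · exact ⟨true, rfl, Or.inl rfl⟩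
    · exact ⟨true, rfl, Or.inr rfl⟩
  · rintro ⟨c, rfl, h1 | h1⟩
    · cases c
      · exact Or.inl ⟨rfl, h1⟩
      · exact Or.inr (Or.inr (Or.inl ⟨rfl, h1⟩))
    · cases c
      · exact Or.inr (Or.inl ⟨rfl, h1⟩)
      · exact Or.inr (Or.inr (Or.inr ⟨rfl, h1⟩))

theorem mem_term {B : G4.N} {t : List Let4} : (B, t) ∈ G4.term ↔ t = [] := by
  change ((B, t) : Unit × List Let4) ∈ ({((), [])} : Finset (Unit × List Let4)) ↔ _
  simp only [Finset.mem_singleton, Prod.mk.injEq]
  exact ⟨fun h => h.2, fun h => ⟨rfl, h⟩⟩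

theorem rd_of_derives {A B : G4.N} {u v : List Let4} (h : G4.Derives A u B v) :
    ∃ w s, u = w.map tL ∧ v = (s.map tR).reverse ∧ Rd w s [] := by
  induction h with
  | refl => exact ⟨[], [], rfl, rfl, rfl⟩
  | @step u B v u' C v' _ hr ih =>
    obtain ⟨w, s, rfl, rfl, h1⟩ := ih
    obtain ⟨c, rfl, h2⟩ := mem_rules.1 hr
    rcases h2 with rfl | rfl
    · refine ⟨w ++ [c], s ++ im1 c, by simp, by simp, ?_⟩
      rw [rd_append]
      exact ⟨[] ++ im1 c, rd_extend h1, Or.inl ⟨[], by simp, rfl⟩⟩
    · refine ⟨w ++ [c], s ++ im2 c, by simp, by simp, ?_⟩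
      rw [rd_append]
      exact ⟨[] ++ im2 c, rd_extend h1, Or.inr ⟨[], by simp, rfl⟩⟩

theorem derives_of_rd {w : List Bool} : ∀ {s : List Bool} {u v : List Let4}, Rd w s [] →
    G4.Derives G4.start u G4.start v →
    G4.Derives G4.start (u ++ w.map tL) G4.start ((s.map tR).reverse ++ v) := by
  induction w with
  | nil =>
    intro s u v h h1
    have : [] = s := h
    subst this
    simpa using h1
  | cons c w ih =>
    rintro s u v (⟨s1, rfl, h2⟩ | ⟨s1, rfl, h2⟩) h1
    · have h3 := Derives.step h1 (mem_rules.2 ⟨c, rfl, Or.inl rfl⟩ :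
        (G4.start, [tL c], G4.start, ((im1 c).map tR).reverse) ∈ G4.rules)
      have h4 := ih h2 h3
      simpa [List.append_assoc] using h4
    · have h3 := Derives.step h1 (mem_rules.2 ⟨c, rfl, Or.inr rfl⟩ :
        (G4.start, [tL c], G4.start, ((im2 c).map tR).reverse) ∈ G4.rules)
      have h4 := ih h2 h3
      simpa [List.append_assoc] using h4

theorem split_unique {w w' : List Bool} {r r' : List Bool}
    (h : w.map tL ++ r.map tR = w'.map tL ++ r'.map tR) : w = w' ∧ r = r' := by
  have hL : ∀ c c', tL c ≠ tR c' := by decide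
  have iL : Function.Injective tL := by decide
  have iR : Function.Injective tR := by decide
  induction w generalizing w' with
  | nil =>
    cases w' with
    | nil =>
      simp only [List.map_nil, List.nil_append] at h
      exact ⟨rfl, List.map_injective_iff.2 iR h⟩
    | cons c w' =>
      cases r with
      | nil => simp at h
      | cons d r =>
        simp only [List.map_nil, List.nil_append, List.map_cons, List.cons_append,
          List.cons.injEq] at h
        exact absurd h.1.symm (hL _ _)
  | cons c w ih =>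
    cases w' with
    | nil =>
      cases r' with
      | nil => simp at h
      | cons d r' =>
        simp only [List.map_nil, List.nil_append, List.map_cons, List.cons_append,
          List.cons.injEq] at h
        exact absurd h.1 (hL _ _)
    | cons c' w' =>
      simp only [List.map_cons, List.cons_append, List.cons.injEq] at h
      obtain ⟨h1, h2⟩ := ih h.2
      exact ⟨by rw [iL h.1, h1], h2⟩

/-- Membership of a word given by the left word and the text. -/
theorem mem_language {w s : List Bool} :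
    w.map tL ++ (s.map tR).reverse ∈ G4.language ↔ Rd w s [] := by
  constructor
  · rintro ⟨u, B, v, t, h1, h2, h3⟩
    have ht : t = [] := mem_term.1 h2
    subst ht
    obtain ⟨w', s', rfl, rfl, h4⟩ := rd_of_derives h1
    rw [List.append_nil, ← List.map_reverse, ← List.map_reverse] at h3
    obtain ⟨rfl, h5⟩ := split_unique h3
    rw [List.reverse_injective h5]
    exact h4
  · intro h
    have h1 := derives_of_rd (u := []) (v := []) h Derives.refl
    simp only [List.nil_append, List.append_nil] at h1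
    exact ⟨_, _, _, [], h1, mem_term.2 rfl, by simp⟩

section word

/-- The text of a window with the block `D` at the place `x`. -/
def wn (τ x : ℕ) (D : Blk) : List Bool :=
  rp x (bt Blk.V) ++ bt D ++ rp (τ - 1 - x) (bt Blk.V)

theorem tx_add {f : ℕ → Blk} {a b : ℕ} : ∀ {P : ℕ},
    tx f P (a + b) = tx f P a ++ tx f (P + a) b := by
  induction a with
  | zero => intro P; simp [tx]
  | succ a ih =>
    intro P
    rw [show a + 1 + b = (a + b) + 1 by ring]
    simp only [tx, ih, List.append_assoc]
    rw [show P + 1 + a = P + (a + 1) by ring]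

theorem tx_V {f : ℕ → Blk} {n : ℕ} : ∀ {P : ℕ}, (∀ i, i < n → f (P + i) = Blk.V) →
    tx f P n = rp n (bt Blk.V) := by
  induction n with
  | zero => intro P _; rfl
  | succ n ih =>
    intro P h
    rw [rp_succ']
    show bt (f P) ++ tx f (P + 1) n = _
    rw [ih (fun i hi => by rw [show P + 1 + i = P + (i + 1) by ring]; exact h _ (by omega))]
    have := h 0 (by omega)
    rw [add_zero] at this
    rw [this]

theorem tx_window {τ K : ℕ} {mk : ℕ → ℕ} {k : ℕ} (hk : k < K) (hm : mk k < τ) :
    tx (fb τ K mk) (k * τ) τ = wn τ (mk k) (kd k) := by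
  have e : τ = mk k + (1 + (τ - 1 - mk k)) := by omega
  conv_lhs => rw [show tx (fb τ K mk) (k * τ) τ =
    tx (fb τ K mk) (k * τ) (mk k + (1 + (τ - 1 - mk k))) by rw [← e]]
  rw [tx_add, tx_add]
  rw [tx_V (n := mk k) (fun i hi => by rw [fb_win (by omega) hk, if_neg (by omega)])]
  rw [tx_V (n := τ - 1 - mk k) (fun i hi => by
    rw [show k * τ + mk k + 1 + i = k * τ + (mk k + 1 + i) by ring,
      fb_win (by omega) hk, if_neg (by omega)])]
  unfold wn
  simp only [tx, fb_win hm hk, if_true, List.append_nil, List.append_assoc]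

theorem tx_mul {f : ℕ → Blk} {c n : ℕ} :
    tx f 0 (n * c) = (List.range n).flatMap fun i => tx f (i * c) c := by
  induction n with
  | zero => simp [tx]
  | succ n ih =>
    rw [List.range_succ, List.flatMap_append, ← ih, add_mul, one_mul, tx_add]
    simp

/-- The text of a superwindow. -/
def sw (N : ℕ) (E : ℕ → ℕ → Prop) [∀ p q, Decidable (E p q)] (i : ℕ) : List Bool :=
  wn (2 * N + 2) (mkb N E (i / N / N) (i / N % N) (i % N) 0) Blk.C ++
    (wn (2 * N + 2) (mkb N E (i / N / N) (i / N % N) (i % N) 1) Blk.J ++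
      wn (2 * N + 2) (mkb N E (i / N / N) (i / N % N) (i % N) 2) Blk.M)

/-- The whole text. -/
def txt (N : ℕ) (E : ℕ → ℕ → Prop) [∀ p q, Decidable (E p q)] : List Bool :=
  ((List.range (N * N * N)).flatMap fun i => sw N E i) ++ rp (2 * N + 2) (bt Blk.V)

/-- The left word of a superwindow. -/
def lw (N : ℕ) : List Bool :=
  (wT ++ rp (2 * N) wA) ++ ((wU ++ rp (2 * N - 1) wA) ++ (wT ++ rp (2 * N) wA))

/-- The whole left word. -/
def lft (N : ℕ) : List Bool :=
  rp (2 * (N - 1)) wA ++ (rp (N * N * N) (lw N) ++ rp (2 * N + 2) wA)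

variable {N : ℕ} {E : ℕ → ℕ → Prop} [∀ p q, Decidable (E p q)]

theorem mkk_three {i j : ℕ} (hj : j < 3) :
    mkk N E (i * 3 + j) = mkb N E (i / N / N) (i / N % N) (i % N) j := by
  unfold mkk
  have h1 : (i * 3 + j) / 3 = i := by omega
  have h2 : (i * 3 + j) % 3 = j := by omega
  rw [h1, h2]

theorem txt_eq (hN : 0 < N) : St (fb (2 * N + 2) (3 * (N * N * N)) (mkk N E))
    ((3 * (N * N * N) + 1) * (2 * N + 2)) 0 = txt N E := by
  set τ := 2 * N + 2 with hτ
  set K := 3 * (N * N * N) with hK
  set f := fb τ K (mkk N E) with hf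
  have hm : ∀ k, mkk N E k < τ := fun k => by
    have := mkk_le (E := E) hN k
    omega
  unfold St
  rw [Nat.sub_zero, add_mul, one_mul, tx_add]
  unfold txt
  congr 1
  · rw [show K * τ = N * N * N * (3 * τ) by rw [hK]; ring, tx_mul]
    apply List.flatMap_congr
    intro i hi
    have hi' : i < N * N * N := List.mem_range.1 hi
    rw [show 3 * τ = τ + (τ + τ) by ring, tx_add (a := τ) (b := τ + τ),
      tx_add (a := τ) (b := τ)]
    unfold sw
    have e0 : i * (τ + (τ + τ)) = (i * 3 + 0) * τ := by ring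
    have e1 : i * (τ + (τ + τ)) + τ = (i * 3 + 1) * τ := by ring
    have e2 : i * (τ + (τ + τ)) + τ + τ = (i * 3 + 2) * τ := by ring
    rw [e2, e1, e0, tx_window (by omega) (hm _), tx_window (by omega) (hm _),
      tx_window (by omega) (hm _), mkk_three (by omega), mkk_three (by omega),
      mkk_three (by omega)]
    have k0 : kd (i * 3 + 0) = Blk.C := by unfold kd; rw [if_pos (by omega)]
    have k1 : kd (i * 3 + 1) = Blk.J := by unfold kd; rw [if_neg (by omega), if_pos (by omega)]
    have k2 : kd (i * 3 + 2) = Blk.M := by unfold kd; rw [if_neg (by omega), if_neg (by omega)]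
    rw [k0, k1, k2]
  · apply tx_V
    intro i _
    exact fb_end (by omega) (by omega)

theorem pf_eq (m : ℕ) : pf (2 * N + 2) (2 * (N - 1)) (3 * m) =
    rp (2 * (N - 1)) wA ++ rp m (lw N) := by
  induction m with
  | zero =>
    rw [mul_zero, rp_zero, List.append_nil]
    rfl
  | succ m ih =>
    rw [show 3 * (m + 1) = 3 * m + 1 + 1 + 1 by ring]
    simp only [pf]
    rw [ih, rp_succ]
    have w0 : wl (2 * N + 2) (3 * m) = wT ++ rp (2 * N) wA := by
      unfold wl; rw [if_neg (by omega)]; rfl
    have w1 : wl (2 * N + 2) (3 * m + 1) = wU ++ rp (2 * N - 1) wA := by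
      unfold wl; rw [if_pos (by omega)]; rfl
    have w2 : wl (2 * N + 2) (3 * m + 1 + 1) = wT ++ rp (2 * N) wA := by
      unfold wl; rw [if_neg (by omega)]; rfl
    rw [w0, w1, w2]
    unfold lw
    simp only [List.append_assoc]

/-- The word of the reduction. -/
def wrd (N : ℕ) (E : ℕ → ℕ → Prop) [∀ p q, Decidable (E p q)] : List Let4 :=
  (lft N).map tL ++ ((txt N E).map tR).reverse

theorem wrd_mem (hN : 0 < N) : wrd N E ∈ G4.language ↔
    Relation.ReflTransGen (DagStep N E) 0 (N - 1) := by
  unfold wrd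
  rw [mem_language, ← sl_final hN, ← txt_eq hN]
  have h1 := rd_all (τ := 2 * N + 2) (K := 3 * (N * N * N)) (S0 := 2 * (N - 1))
    (mk := mkk N E) (by omega) (mkk_pos hN)
  rw [← h1, pf_eq]
  unfold lft
  simp only [List.append_assoc]

end word

end Pool.Agent.Helper75.Lin4
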