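import Pool.Agent.Helper75.Lin.Defs

/-!
# A linear grammar with four recursive rules: reading blocks
-/

namespace Pool.Agent.Helper75.Lin4

open Pool.Agent.Helper38.LinL Pool.Agent.Helper38.LinL.LinearGrammar
open Pool.Agent.Helper75.Lin (Let4)

/-- The grammar `S → a S 0 | a S 100 | b S 1 | b S 1100 | ε` with the single nonterminal `S`. -/
def G4 : LinearGrammar Let4 where
  N := Unit
  finN := inferInstance
  start := ()
  rules := {((), [Let4.a], (), [Let4.zero]),
    ((), [Let4.a], (), [Let4.one, Let4.zero, Let4.zero]),
    ((), [Let4.b], (), [Let4.one]),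
    ((), [Let4.b], (), [Let4.one, Let4.one, Let4.zero, Let4.zero])}
  term := {((), [])}

/-- First image of a letter. -/
def im1 : Bool → List Bool
  | false => [false]
  | true => [true]

/-- Second image of a letter. -/
def im2 : Bool → List Bool
  | false => [false, false, true]
  | true => [false, false, true, true]

/-- `Rd w s s'`: reading `w` can lead from the remaining text `s` to the remaining text `s'`. -/
def Rd : List Bool → List Bool → List Bool → Prop
  | [], s, s' => s' = s
  | c :: w, s, s' => (∃ s1, s = im1 c ++ s1 ∧ Rd w s1 s') ∨ (∃ s1, s = im2 c ++ s1 ∧ Rd w s1 s')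

theorem rd_append {w1 w2 : List Bool} : ∀ {s s' : List Bool},
    Rd (w1 ++ w2) s s' ↔ ∃ m, Rd w1 s m ∧ Rd w2 m s' := by
  induction w1 with
  | nil =>
    intro s s'
    simp [Rd]
  | cons c w ih =>
    intro s s'
    simp only [List.cons_append, Rd, ih]
    constructor
    · rintro (⟨s1, h, m, h1, h2⟩ | ⟨s1, h, m, h1, h2⟩)
      · exact ⟨m, Or.inl ⟨s1, h, h1⟩, h2⟩
      · exact ⟨m, Or.inr ⟨s1, h, h1⟩, h2⟩
    · rintro ⟨m, ⟨s1, h, h1⟩ | ⟨s1, h, h1⟩, h2⟩
      · exact Or.inl ⟨s1, h, m, h1, h2⟩
      · exact Or.inr ⟨s1, h, m, h1, h2⟩

theorem rd_extend {w : List Bool} {t : List Bool} : ∀ {s s' : List Bool},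
    Rd w s s' → Rd w (s ++ t) (s' ++ t) := by
  induction w with
  | nil =>
    intro s s' h
    simp only [Rd] at h ⊢
    rw [h]
  | cons c w ih =>
    rintro s s' (⟨s1, h, h1⟩ | ⟨s1, h, h1⟩)
    · exact Or.inl ⟨s1 ++ t, by rw [h, List.append_assoc], ih h1⟩
    · exact Or.inr ⟨s1 ++ t, by rw [h, List.append_assoc], ih h1⟩

/-- Removing a prefix. -/
def strip : List Bool → List Bool → Option (List Bool)
  | [], s => some s
  | _ :: _, [] => none
  | a :: v, b :: s => if a = b then strip v s else none

theorem strip_eq_some {v : List Bool} : ∀ {s s1 : List Bool},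
    strip v s = some s1 ↔ s = v ++ s1 := by
  induction v with
  | nil =>
    intro s s1
    simp [strip]
  | cons a v ih =>
    intro s s1
    cases s with
    | nil => simp [strip]
    | cons b s =>
      unfold strip
      split_ifs with h
      · subst h
        rw [ih]
        simp
      · simp only [reduceCtorEq, List.cons_append, List.cons.injEq, false_iff, not_and]
        intro h1
        exact absurd h1.symm h

/-- All remainders after reading `w`. -/
def ex : List Bool → List Bool → List (List Bool)
  | [], s => [s]
  | c :: w, s => ((strip (im1 c) s).elim [] fun s1 => ex w s1) ++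
      ((strip (im2 c) s).elim [] fun s1 => ex w s1)

theorem mem_elim {f : List Bool → List (List Bool)} {o : Option (List Bool)} {x : List Bool} :
    x ∈ (o.elim [] f) ↔ ∃ s1, o = some s1 ∧ x ∈ f s1 := by
  cases o <;> simp

theorem rd_iff_ex {w : List Bool} : ∀ {s s' : List Bool}, Rd w s s' ↔ s' ∈ ex w s := by
  induction w with
  | nil =>
    intro s s'
    simp [Rd, ex]
  | cons c w ih =>
    intro s s'
    simp only [Rd, ex, List.mem_append, mem_elim, strip_eq_some, ih]

/-- The possible remainders of `pre` after reading `w`, and `none` if `pre` may be too short. -/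
def loc : List Bool → List Bool → Option (List (List Bool))
  | [], pre => some [pre]
  | c :: w, pre => if pre.length < 4 then none else
      ((strip (im1 c) pre).elim (some []) fun s1 => loc w s1).bind fun a =>
        ((strip (im2 c) pre).elim (some []) fun s1 => loc w s1).bind fun b => some (a ++ b)

theorem im1_length (c : Bool) : (im1 c).length ≤ 4 := by cases c <;> simp [im1]

theorem im2_length (c : Bool) : (im2 c).length ≤ 4 := by cases c <;> simp [im2]

theorem split_pre {pre rest v s1 : List Bool} (hv : v.length ≤ pre.length) :
    pre ++ rest = v ++ s1 ↔ ∃ p1, pre = v ++ p1 ∧ s1 = p1 ++ rest := by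
  constructor
  · intro h
    have h1 : v = pre.take v.length := by
      have := congrArg (List.take v.length) h
      rw [List.take_append_of_le_length hv, List.take_left'] at this
      · exact this.symm
      · rfl
    refine ⟨pre.drop v.length, ?_, ?_⟩
    · conv_lhs => rw [← List.take_append_drop v.length pre]
      rw [← h1]
    · have := congrArg (List.drop v.length) h
      rw [List.drop_append_of_le_length hv, List.drop_left'] at this
      · exact this.symm
      · rfl
  · rintro ⟨p1, rfl, rfl⟩
    rw [List.append_assoc]

theorem loc_spec {w : List Bool} : ∀ {pre : List Bool} {L : List (List Bool)},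
    loc w pre = some L → ∀ {rest s' : List Bool},
      (Rd w (pre ++ rest) s' ↔ ∃ l ∈ L, s' = l ++ rest) := by
  induction w with
  | nil =>
    intro pre L h rest s'
    simp only [loc, Option.some.injEq] at h
    subst h
    simp [Rd]
  | cons c w ih =>
    intro pre L h rest s'
    unfold loc at h
    split_ifs at h with h4
    rw [Option.bind_eq_some_iff] at h
    obtain ⟨a, ha, h⟩ := h
    rw [Option.bind_eq_some_iff] at h
    obtain ⟨b, hb, h⟩ := h
    simp only [Option.some.injEq] at h
    subst h
    have key : ∀ v : List Bool, v.length ≤ 4 → ∀ a : List (List Bool),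
        ((strip v pre).elim (some []) fun s1 => loc w s1) = some a →
        ((∃ s1, pre ++ rest = v ++ s1 ∧ Rd w s1 s') ↔ ∃ l ∈ a, s' = l ++ rest) := by
      intro v hv a ha
      cases hs : strip v pre with
      | none =>
        rw [hs] at ha
        simp only [Option.elim_none, Option.some.injEq] at ha
        subst ha
        simp only [List.not_mem_nil, false_and, exists_false, iff_false, not_exists, not_and]
        intro s1 h1
        obtain ⟨p1, h2, _⟩ := (split_pre (by omega)).1 h1
        rw [← strip_eq_some, hs] at h2
        simp at h2
      | some p1 =>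
        rw [hs] at ha
        simp only [Option.elim_some] at ha
        have h2 := strip_eq_some.1 hs
        rw [← ih ha]
        constructor
        · rintro ⟨s1, h1, h3⟩
          obtain ⟨p2, h4, rfl⟩ := (split_pre (by omega)).1 h1
          rw [h2] at h4
          rw [List.append_cancel_left h4]
          exact h3
        · intro h3
          exact ⟨p1 ++ rest, by rw [h2, List.append_assoc], h3⟩
    simp only [Rd]
    rw [key _ (im1_length c) a ha, key _ (im2_length c) b hb]
    simp only [List.mem_append, or_and_right, exists_or]

/-- Certificate: reading `w` from `pre` leads exactly to the targets. -/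
def chk (w pre : List Bool) (T : List (List Bool)) : Bool :=
  match loc w pre with
  | some L => L.all (fun l => decide (l ∈ T)) && T.all (fun l => decide (l ∈ L))
  | none => false

theorem chk_spec {w pre : List Bool} {T : List (List Bool)} (h : chk w pre T = true)
    {rest s' : List Bool} : Rd w (pre ++ rest) s' ↔ ∃ l ∈ T, s' = l ++ rest := by
  unfold chk at h
  cases hL : loc w pre with
  | none => rw [hL] at h; simp at h
  | some L =>
    rw [hL] at h
    simp only [Bool.and_eq_true, List.all_eq_true, decide_eq_true_eq] at h
    rw [loc_spec hL]
    constructor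
    · rintro ⟨l, h1, h2⟩; exact ⟨l, h.1 l h1, h2⟩
    · rintro ⟨l, h1, h2⟩; exact ⟨l, h.2 l h1, h2⟩

/-- The four blocks. -/
inductive Blk : Type
  | V : Blk
  | C : Blk
  | J : Blk
  | M : Blk
  deriving DecidableEq, Fintype

open Blk

/-- The text of a block. -/
def bt : Blk → List Bool
  | V => [false, false, true, false, false, true, true]
  | C => [false, false, false, true, false, false, true, true, false, false, true, true]
  | J => [false, false, true, false, false, false, true, true, false, false, true, true]
  | M => [false, false, false, true, true, false, false, true, true]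

/-- The text of a list of blocks. -/
def ft (l : List Blk) : List Bool := l.flatMap bt

/-- The word passing one block. -/
def wA : List Bool := [false, false, true, true]

/-- The first tick. -/
def wT : List Bool := [false, false, false, true, true, false, false, true, true]

/-- The second tick. -/
def wU : List Bool := [false, false, true, false, false, false, true, true, false, false, true,
  true]

theorem idle_cert : ∀ b b' : Blk, chk wA (bt b ++ bt b') [bt b'] = true := by decide

theorem last_cert : ex wA (bt V) = [[]] := by decide

theorem tickC_cert : chk wT (ft [C, V, V, V]) [ft [V, V, V], ft [V, V]] = true := by decide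

theorem tickM_cert : chk wT (ft [M, V, V, V]) [ft [V, V, V]] = true := by decide

theorem tickV_cert : ∀ D : Blk, (D = V ∨ D = C ∨ D = M) →
    chk wT (ft [V, D, V, V]) [ft [V, V]] = true ∧ chk wT (ft [V, V, D, V]) [ft [D, V]] = true ∧
      chk wT (ft [V, V, V, D]) [ft [V, D]] = true := by decide

theorem tickJ_cert : chk wU (ft [J, V, V, V]) [ft [V, V, V]] = true := by decide

theorem tickW_cert : ∀ D : Blk, (D = V ∨ D = J) →
    chk wU (ft [V, D, V, V]) [ft [V]] = true ∧ chk wU (ft [V, V, D, V]) [ft [V]] = true ∧
      chk wU (ft [V, V, V, D]) [ft [D]] = true := by decide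

end Pool.Agent.Helper75.Lin4
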