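import Pool.Agent.Helper75.Lin4.Text

/-!
# Simulating reachability in acyclic graphs by the slots of the tokens
-/

namespace Pool.Agent.Helper75.Lin4

open Pool.Agent.Helper75.Lin (Bs bs_mono reach_of_bs bs_of_reach DagStep)

set_option linter.unusedSimpArgs false
set_option linter.unusedVariables false
set_option linter.unusedSectionVars false

/-- The marked slot of the window number `j` of the superwindow of `(p, q, t)`. -/
def mkb (N : ℕ) (E : ℕ → ℕ → Prop) [∀ p q, Decidable (E p q)] (p q t j : ℕ) : ℕ :=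
  if j = 0 then (if (t = 0 ∧ p < q) ∧ E p q then 2 * (N - 1 - p) else 2 * N + 1)
  else if j = 1 then (if p + t + 1 < q then 2 * (N - 1 - p - t) - 1 else 2 * N + 1)
  else 2 * (N - 1 - q) + 1

/-- The marked slot of the window number `k`. -/
def mkk (N : ℕ) (E : ℕ → ℕ → Prop) [∀ p q, Decidable (E p q)] (k : ℕ) : ℕ :=
  mkb N E (k / 3 / N / N) (k / 3 / N % N) (k / 3 % N) (k % 3)

section sim

variable {N : ℕ} {E : ℕ → ℕ → Prop} [∀ p q, Decidable (E p q)]

theorem mkk_eq {p q t j : ℕ} (hq : q < N) (ht : t < N) (hj : j < 3) :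
    mkk N E (3 * ((p * N + q) * N + t) + j) = mkb N E p q t j := by
  have h1 : (3 * ((p * N + q) * N + t) + j) / 3 = (p * N + q) * N + t := by omega
  have h2 : (3 * ((p * N + q) * N + t) + j) % 3 = j := by omega
  have h3 : ((p * N + q) * N + t) / N = p * N + q := by
    rw [add_comm, Nat.add_mul_div_right _ _ (by omega), Nat.div_eq_of_lt ht, zero_add]
  have h4 : ((p * N + q) * N + t) % N = t := by
    rw [add_comm, Nat.add_mul_mod_self_right, Nat.mod_eq_of_lt ht]
  have h5 : (p * N + q) / N = p := by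
    rw [add_comm, Nat.add_mul_div_right _ _ (by omega), Nat.div_eq_of_lt hq, zero_add]
  have h6 : (p * N + q) % N = q := by
    rw [add_comm, Nat.add_mul_mod_self_right, Nat.mod_eq_of_lt hq]
  unfold mkk
  rw [h1, h2, h3, h4, h5, h6]

theorem mkb_pos {p q t j : ℕ} (hq : q < N) :
    1 ≤ mkb N E p q t j ∧ (j = 1 → 2 ≤ mkb N E p q t j) := by
  unfold mkb
  constructor
  · split_ifs <;> omega
  · intro h1
    rw [if_neg (by omega), if_pos h1]
    split_ifs with h
    · omega
    · omega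

theorem mkb_le {p q t j : ℕ} (hN : 0 < N) : mkb N E p q t j ≤ 2 * N + 1 := by
  unfold mkb
  split_ifs <;> omega

theorem mkk_pos (hN : 0 < N) (k : ℕ) : 1 ≤ mkk N E k ∧ (k % 3 = 1 → 2 ≤ mkk N E k) :=
  mkb_pos (Nat.mod_lt _ hN)

theorem mkk_le (hN : 0 < N) (k : ℕ) : mkk N E k ≤ 2 * N + 1 := mkb_le hN

/-- Registers and possibly one traveller. -/
def Stt (N : ℕ) (B : ℕ → Prop) (T : Prop) (c o : ℕ) : Prop :=
  (∃ x, x < N ∧ B x ∧ o = 2 * (N - 1 - x)) ∨ (T ∧ o = c)

variable {mk : ℕ → ℕ} {S0 k : ℕ} {B : ℕ → Prop} {T : Prop} {c : ℕ}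

theorem w_idle {S : ℕ → Prop} (h : ∀ o, Sl mk S0 k o ↔ S o) (hZ : ∀ o, S o → o ≠ mk k) :
    ∀ o, Sl mk S0 (k + 1) o ↔ S o := by
  intro o'
  constructor
  · rintro ⟨d, h1, h2 | h2⟩
    · rw [h2.2, ← h]; exact h1
    · exact absurd h2.1 (hZ _ ((h _).1 h1))
  · intro h1
    exact ⟨o', (h _).2 h1, Or.inl ⟨hZ _ h1, rfl⟩⟩

theorem w_spawn (hk : k % 3 = 0) {p : ℕ} (hp : p + 1 < N)
    (h : ∀ o, Sl mk S0 k o ↔ Stt N B False c o) (hZ : mk k = 2 * (N - 1 - p)) :
    ∀ o, Sl mk S0 (k + 1) o ↔ Stt N B (B p) (2 * (N - 1 - p) - 1) o := by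
  intro o'
  constructor
  · rintro ⟨d, h1, h2⟩
    rw [h] at h1
    obtain ⟨x, hx, hB, rfl⟩ | ⟨h1, _⟩ := h1
    · rcases h2 with h2 | h2
      · rw [h2.2]
        exact Or.inl ⟨x, hx, hB, rfl⟩
      · have hxp : x = p := by omega
        subst hxp
        obtain ⟨_, ⟨_, h3 | h3⟩ | h3 | h3⟩ := h2
        · exact Or.inl ⟨x, hx, hB, h3⟩
        · exact Or.inr ⟨hB, by omega⟩
        · omega
        · omega
    · exact h1.elim
  · rintro (⟨x, hx, hB, rfl⟩ | ⟨hB, rfl⟩)
    · refine ⟨2 * (N - 1 - x), (h _).2 (Or.inl ⟨x, hx, hB, rfl⟩), ?_⟩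
      by_cases hxp : 2 * (N - 1 - x) = mk k
      · exact Or.inr ⟨hxp, Or.inl ⟨hk, Or.inl rfl⟩⟩
      · exact Or.inl ⟨hxp, rfl⟩
    · refine ⟨2 * (N - 1 - p), (h _).2 (Or.inl ⟨p, by omega, hB, rfl⟩), ?_⟩
      exact Or.inr ⟨hZ.symm, Or.inl ⟨hk, Or.inr (by omega)⟩⟩

theorem w_jump (hk : k % 3 = 1) (hc : c % 2 = 1) (hc2 : 2 ≤ c)
    (h : ∀ o, Sl mk S0 k o ↔ Stt N B T c o) (hZ : mk k = c) :
    ∀ o, Sl mk S0 (k + 1) o ↔ Stt N B T (c - 2) o := by
  intro o'
  constructor
  · rintro ⟨d, h1, h2⟩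
    rw [h] at h1
    obtain ⟨x, hx, hB, rfl⟩ | ⟨h1, rfl⟩ := h1
    · rcases h2 with h2 | h2
      · rw [h2.2]
        exact Or.inl ⟨x, hx, hB, rfl⟩
      · omega
    · rcases h2 with h2 | h2
      · exact absurd hZ.symm h2.1
      · exact Or.inr ⟨h1, by omega⟩
  · rintro (⟨x, hx, hB, rfl⟩ | ⟨hB, rfl⟩)
    · exact ⟨_, (h _).2 (Or.inl ⟨x, hx, hB, rfl⟩), Or.inl ⟨by omega, rfl⟩⟩
    · exact ⟨c, (h _).2 (Or.inr ⟨hB, rfl⟩), Or.inr ⟨hZ.symm, Or.inr (Or.inl ⟨hk, by omega⟩)⟩⟩

theorem w_down (hk : k % 3 = 2) (hc : c % 2 = 1)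
    (h : ∀ o, Sl mk S0 k o ↔ Stt N B T c o) (hZ : mk k = c) :
    ∀ o, Sl mk S0 (k + 1) o ↔ Stt N B T (c - 1) o := by
  intro o'
  constructor
  · rintro ⟨d, h1, h2⟩
    rw [h] at h1
    obtain ⟨x, hx, hB, rfl⟩ | ⟨h1, rfl⟩ := h1
    · rcases h2 with h2 | h2
      · rw [h2.2]
        exact Or.inl ⟨x, hx, hB, rfl⟩
      · omega
    · rcases h2 with h2 | h2
      · exact absurd hZ.symm h2.1
      · exact Or.inr ⟨h1, by omega⟩
  · rintro (⟨x, hx, hB, rfl⟩ | ⟨hB, rfl⟩)
    · exact ⟨_, (h _).2 (Or.inl ⟨x, hx, hB, rfl⟩), Or.inl ⟨by omega, rfl⟩⟩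
    · exact ⟨c, (h _).2 (Or.inr ⟨hB, rfl⟩), Or.inr ⟨hZ.symm, Or.inr (Or.inr ⟨hk, by omega⟩)⟩⟩

/-- The slot of the traveller before the superwindow `t ≥ 1`. -/
def tp (N p q t : ℕ) : ℕ := if p + t + 1 < q then 2 * (N - 1 - p - t) - 1 else 2 * (N - 1 - q)

/-- One superwindow. -/
theorem super {p q t : ℕ} (hq : q < N) (ht : t < N)
    (h : ∀ o, Sl (mkk N E) S0 (3 * ((p * N + q) * N + t)) o ↔
      Stt N B ((p < q ∧ E p q ∧ B p) ∧ 1 ≤ t) (tp N p q t) o) :
    ∀ o, Sl (mkk N E) S0 (3 * ((p * N + q) * N + (t + 1))) o ↔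
      Stt N B ((p < q ∧ E p q ∧ B p) ∧ 1 ≤ t + 1) (tp N p q (t + 1)) o := by
  have hz : ∀ j, j < 3 → mkk N E (3 * ((p * N + q) * N + t) + j) = mkb N E p q t j :=
    fun j hj => mkk_eq hq ht hj
  generalize hK : 3 * ((p * N + q) * N + t) = K at h hz
  have hK' : 3 * ((p * N + q) * N + (t + 1)) = K + 1 + 1 + 1 := by rw [← hK]; ring
  rw [hK']
  have k0 : K % 3 = 0 := by omega
  have z0 := hz 0 (by omega)
  have z1 := hz 1 (by omega)
  have z2 := hz 2 (by omega)
  rw [add_zero] at z0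
  unfold mkb at z0 z1 z2
  rw [if_pos rfl] at z0
  rw [if_neg (by omega), if_pos rfl] at z1
  rw [if_neg (by omega), if_neg (by omega)] at z2
  have hreg : ∀ {T : Prop} {c m : ℕ}, m % 2 = 1 → (T → c ≠ m) → ∀ o, Stt N B T c o → o ≠ m := by
    rintro T c m hm hc o (⟨x, hx, hB, rfl⟩ | ⟨hT, rfl⟩)
    · omega
    · exact hc hT
  by_cases hA : p < q ∧ E p q
  · obtain ⟨hpq, hE⟩ := hA
    simp only [hpq, hE, true_and, and_true] at h z0 ⊢
    -- after the first window
    have a1 : ∀ o, Sl (mkk N E) S0 (K + 1) o ↔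
        Stt N B (B p) (if p + t + 1 < q then 2 * (N - 1 - p - t) - 1 else
          if t = 0 then 2 * (N - 1 - q) + 1 else 2 * (N - 1 - q)) o := by
      rcases Nat.eq_zero_or_pos t with h0 | h0
      · subst h0
        rw [if_pos rfl] at z0
        have h' : ∀ o, Sl (mkk N E) S0 K o ↔ Stt N B False (tp N p q 0) o := by
          intro o
          rw [h]
          unfold Stt
          simp
        intro o
        rw [w_spawn k0 (by omega) h' z0, if_pos rfl]
        have e : (if p + 0 + 1 < q then 2 * (N - 1 - p - 0) - 1 else 2 * (N - 1 - q) + 1) =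
            2 * (N - 1 - p) - 1 := by
          split_ifs <;> omega
        rw [e]
      · have h1 : 1 ≤ t := h0
        rw [if_neg (by omega)] at z0
        simp only [h1, and_true] at h
        have a0 := w_idle h (by
          rw [z0]
          refine hreg (by omega) fun _ => ?_
          unfold tp
          split_ifs <;> omega)
        intro o
        rw [a0]
        rw [if_neg (show ¬ t = 0 by omega)]
        rfl
    have a3 : ∀ o, Sl (mkk N E) S0 (K + 1 + 1 + 1) o ↔ Stt N B (B p) (tp N p q (t + 1)) o := by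
      by_cases b1 : p + t + 1 < q
      · rw [if_pos b1] at z1
        rw [if_pos (by omega)] at a1
        have a2 := w_jump (by omega) (by omega) (by omega) a1 z1
        by_cases b2 : p + t + 2 < q
        · have a3 := w_idle a2 (by
            rw [z2]
            exact hreg (by omega) fun _ => by omega)
          intro o
          rw [a3]
          unfold tp
          rw [if_pos (by omega)]
          have e : 2 * (N - 1 - p - t) - 1 - 2 = 2 * (N - 1 - p - (t + 1)) - 1 := by omega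
          rw [e]
        · have a3 := w_down (by omega) (by omega) a2 (by rw [z2]; omega)
          intro o
          rw [a3]
          unfold tp
          rw [if_neg (by omega)]
          have e : 2 * (N - 1 - p - t) - 1 - 2 - 1 = 2 * (N - 1 - q) := by omega
          rw [e]
      · rw [if_neg b1] at z1 a1
        by_cases b2 : t = 0
        · rw [if_pos b2] at a1
          have a2 := w_idle a1 (by
            rw [z1]
            exact hreg (by omega) fun _ => by omega)
          have a3 := w_down (by omega) (by omega) a2 z2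
          intro o
          rw [a3]
          unfold tp
          rw [if_neg (by omega)]
          have e : 2 * (N - 1 - q) + 1 - 1 = 2 * (N - 1 - q) := by omega
          rw [e]
        · rw [if_neg b2] at a1
          have a2 := w_idle a1 (by
            rw [z1]
            exact hreg (by omega) fun _ => by omega)
          have a3 := w_idle a2 (by
            rw [z2]
            exact hreg (by omega) fun _ => by omega)
          intro o
          rw [a3]
          unfold tp
          rw [if_neg (by omega)]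
    intro o
    rw [a3]
    simp
  · have hno : ∀ t', ∀ o, Stt N B ((p < q ∧ E p q ∧ B p) ∧ 1 ≤ t') (tp N p q t') o ↔
        Stt N B False 0 o := by
      intro t' o
      have : ¬ ((p < q ∧ E p q ∧ B p) ∧ 1 ≤ t') := fun hh => hA ⟨hh.1.1, hh.1.2.1⟩
      simp only [Stt, this, false_and]
    simp only [hno] at h ⊢
    rw [if_neg (fun hh => hA ⟨hh.1.2, hh.2⟩)] at z0
    have a0 := w_idle h (by rw [z0]; exact hreg (by omega) (fun hh => hh.elim))
    have a1 := w_idle a0 (by
      rw [z1]; exact hreg (by split_ifs <;> omega) (fun hh => hh.elim))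
    exact w_idle a1 (by rw [z2]; exact hreg (by omega) (fun hh => hh.elim))

theorem bs_lt (hN : 0 < N) (m : ℕ) : ∀ x, Bs N E m x → x < N := by
  induction m with
  | zero =>
    intro x h
    have : x = 0 := h
    omega
  | succ m ih =>
    rintro x (h | ⟨rfl, _⟩)
    · exact ih x h
    · exact Nat.mod_lt _ hN

theorem sl_pairs (hN : 0 < N) (m : ℕ) : ∀ o, Sl (mkk N E) (2 * (N - 1)) (3 * (m * N)) o ↔
    ∃ x, x < N ∧ Bs N E m x ∧ o = 2 * (N - 1 - x) := by
  induction m with
  | zero =>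
    intro o
    rw [zero_mul, mul_zero]
    constructor
    · intro h
      have : o = 2 * (N - 1) := h
      exact ⟨0, hN, rfl, by omega⟩
    · rintro ⟨x, _, h, rfl⟩
      have : x = 0 := h
      subst this
      rfl
  | succ m ih =>
    set p := m / N with hp
    set q := m % N with hq'
    have hq : q < N := Nat.mod_lt _ hN
    have hm : p * N + q = m := by
      rw [hp, hq', mul_comm]
      exact Nat.div_add_mod m N
    have key : ∀ t, t ≤ N → ∀ o, Sl (mkk N E) (2 * (N - 1)) (3 * ((p * N + q) * N + t)) o ↔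
        Stt N (Bs N E m) ((p < q ∧ E p q ∧ Bs N E m p) ∧ 1 ≤ t) (tp N p q t) o := by
      intro t
      induction t with
      | zero =>
        intro _ o
        rw [hm, add_zero, ih o]
        simp [Stt]
      | succ t iht =>
        intro ht
        exact super hq (by omega) (iht (by omega))
    intro o
    have h1 := key N le_rfl o
    have e1 : tp N p q N = 2 * (N - 1 - q) := by
      unfold tp
      have h0 : 0 ≤ p := Nat.zero_le p
      rw [if_neg (by omega)]
    rw [show 3 * ((p * N + q) * N + N) = 3 * ((m + 1) * N) by rw [hm]; ring, e1] at h1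
    rw [h1]
    unfold Stt
    constructor
    · rintro (⟨x, hx, hB, rfl⟩ | ⟨⟨hT, _⟩, rfl⟩)
      · exact ⟨x, hx, Or.inl hB, rfl⟩
      · exact ⟨q, hq, Or.inr ⟨rfl, hT.2.1, hT.1, hT.2.2⟩, rfl⟩
    · rintro ⟨x, hx, hB | ⟨h3, h4, h5, h6⟩, rfl⟩
      · exact Or.inl ⟨x, hx, hB, rfl⟩
      · refine Or.inr ⟨⟨⟨h5, h4, h6⟩, by omega⟩, by rw [h3]⟩

theorem sl_final (hN : 0 < N) : Sl (mkk N E) (2 * (N - 1)) (3 * (N * N * N)) 0 ↔
    Relation.ReflTransGen (DagStep N E) 0 (N - 1) := by
  rw [sl_pairs hN]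
  constructor
  · rintro ⟨x, hx, h, h2⟩
    have : x = N - 1 := by omega
    subst this
    exact reach_of_bs hN _ _ h
  · intro h
    exact ⟨N - 1, by omega, bs_mono (Nat.mul_le_mul_right _ (by omega)) (bs_of_reach h), by omega⟩

end sim

end Pool.Agent.Helper75.Lin4
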