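import Pool.Agent.Helper75.Lin4.Read
import Pool.Agent.Helper75.Lin.Gadget

/-!
# Windows
-/

namespace Pool.Agent.Helper75.Lin4

open Blk

set_option linter.unusedSimpArgs false
set_option linter.unusedVariables false
set_option linter.unusedSectionVars false

/-- The text of the blocks `f P, ..., f (P + n - 1)`. -/
def tx (f : ℕ → Blk) : ℕ → ℕ → List Bool
  | _, 0 => []
  | P, n + 1 => bt (f P) ++ tx f (P + 1) n

/-- Repetition of a word. -/
def rp {β : Type} (n : ℕ) (l : List β) : List β := (List.range n).flatMap fun _ => l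

theorem rp_succ {β : Type} (n : ℕ) (l : List β) : rp (n + 1) l = rp n l ++ l := by
  unfold rp
  rw [List.range_succ, List.flatMap_append]
  simp

theorem rp_zero {β : Type} (l : List β) : rp 0 l = [] := rfl

theorem rp_succ' {β : Type} (n : ℕ) (l : List β) : rp (n + 1) l = l ++ rp n l := by
  induction n with
  | zero => simp [rp]
  | succ n ih => rw [rp_succ, ih, List.append_assoc, ← rp_succ, ih]

section reading

variable {f : ℕ → Blk} {L : ℕ}

/-- The remaining text at the block number `P`. -/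
def St (f : ℕ → Blk) (L P : ℕ) : List Bool := tx f P (L - P)

theorem st_lt {P : ℕ} (h : P < L) : St f L P = bt (f P) ++ St f L (P + 1) := by
  unfold St
  obtain ⟨m, hm⟩ : ∃ m, L - P = m + 1 := ⟨L - P - 1, by omega⟩
  rw [hm, show L - (P + 1) = m by omega]
  rfl

theorem st_ge {P : ℕ} (h : L ≤ P) : St f L P = [] := by
  unfold St
  rw [show L - P = 0 by omega]
  rfl

theorem rd_idle (hV : f (L - 1) = V) {P : ℕ} {s' : List Bool} :
    Rd wA (St f L P) s' ↔ P < L ∧ s' = St f L (P + 1) := by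
  rcases Nat.lt_or_ge P L with h | h
  · rcases Nat.lt_or_ge (P + 1) L with h1 | h1
    · rw [st_lt h, st_lt h1, ← List.append_assoc, chk_spec (idle_cert _ _)]
      simp [h]
    · have h2 : P = L - 1 := by omega
      rw [st_lt h, st_ge h1, h2, hV, List.append_nil, rd_iff_ex, last_cert]
      simp
      omega
  · rw [st_ge h]
    have h2 : ¬ P < L := by omega
    simp only [h2, false_and, iff_false]
    rw [rd_iff_ex]
    have : ex wA [] = [] := by decide
    rw [this]
    simp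

theorem rd_idles (hV : f (L - 1) = V) {n P : ℕ} {s' : List Bool} (hP : P ≤ L) :
    Rd (rp n wA) (St f L P) s' ↔ P + n ≤ L ∧ s' = St f L (P + n) := by
  induction n generalizing s' with
  | zero =>
    rw [rp_zero]
    simp [Rd, hP]
  | succ n ih =>
    rw [rp_succ, rd_append]
    constructor
    · rintro ⟨m, h1, h2⟩
      obtain ⟨h3, rfl⟩ := ih.1 h1
      obtain ⟨h4, rfl⟩ := (rd_idle hV).1 h2
      exact ⟨by omega, rfl⟩
    · rintro ⟨h1, rfl⟩
      exact ⟨_, ih.2 ⟨by omega, rfl⟩, (rd_idle hV).2 ⟨by omega, rfl⟩⟩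

theorem st_four {P : ℕ} (h : P + 4 ≤ L) :
    St f L P = ft [f P, f (P + 1), f (P + 2), f (P + 3)] ++ St f L (P + 4) := by
  rw [st_lt (by omega), st_lt (P := P + 1) (by omega), st_lt (P := P + 1 + 1) (by omega),
    st_lt (P := P + 1 + 1 + 1) (by omega)]
  simp [ft, List.append_assoc]

theorem st_two {P : ℕ} (h : P + 4 ≤ L) :
    St f L (P + 2) = ft [f (P + 2), f (P + 3)] ++ St f L (P + 4) := by
  rw [st_lt (P := P + 2) (by omega), st_lt (P := P + 2 + 1) (by omega)]
  simp [ft, List.append_assoc]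

theorem st_one {P : ℕ} (h : P + 4 ≤ L) :
    St f L (P + 3) = ft [f (P + 3)] ++ St f L (P + 4) := by
  rw [st_lt (P := P + 3) (by omega)]
  simp [ft, List.append_assoc]

theorem st_three {P : ℕ} (h : P + 4 ≤ L) :
    St f L (P + 1) = ft [f (P + 1), f (P + 2), f (P + 3)] ++ St f L (P + 4) := by
  rw [st_lt (P := P + 1) (by omega), st_lt (P := P + 1 + 1) (by omega),
    st_lt (P := P + 1 + 1 + 1) (by omega)]
  simp [ft, List.append_assoc]

theorem tick_C {P : ℕ} (h : P + 4 ≤ L) (h0 : f P = C) (h1 : f (P + 1) = V) (h2 : f (P + 2) = V)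
    (h3 : f (P + 3) = V) {s' : List Bool} :
    Rd wT (St f L P) s' ↔ s' = St f L (P + 1) ∨ s' = St f L (P + 2) := by
  rw [st_three h, st_two h, st_four h, h0, h1, h2, h3, chk_spec tickC_cert]
  simp

theorem tick_M {P : ℕ} (h : P + 4 ≤ L) (h0 : f P = M) (h1 : f (P + 1) = V) (h2 : f (P + 2) = V)
    (h3 : f (P + 3) = V) {s' : List Bool} :
    Rd wT (St f L P) s' ↔ s' = St f L (P + 1) := by
  rw [st_three h, st_four h, h0, h1, h2, h3, chk_spec tickM_cert]
  simp

theorem tick_V {D : Blk} (hD : D = V ∨ D = C ∨ D = M) {P : ℕ} (h : P + 4 ≤ L) (h0 : f P = V)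
    (h123 : (f (P + 1) = D ∧ f (P + 2) = V ∧ f (P + 3) = V) ∨
      (f (P + 1) = V ∧ f (P + 2) = D ∧ f (P + 3) = V) ∨
      (f (P + 1) = V ∧ f (P + 2) = V ∧ f (P + 3) = D)) {s' : List Bool} :
    Rd wT (St f L P) s' ↔ s' = St f L (P + 2) := by
  obtain ⟨c1, c2, c3⟩ := tickV_cert D hD
  rcases h123 with ⟨h1, h2, h3⟩ | ⟨h1, h2, h3⟩ | ⟨h1, h2, h3⟩
  · rw [st_two h, st_four h, h0, h1, h2, h3, chk_spec c1]
    simp
  · rw [st_two h, st_four h, h0, h1, h2, h3, chk_spec c2]
    simp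
  · rw [st_two h, st_four h, h0, h1, h2, h3, chk_spec c3]
    simp

theorem tick_J {P : ℕ} (h : P + 4 ≤ L) (h0 : f P = J) (h1 : f (P + 1) = V) (h2 : f (P + 2) = V)
    (h3 : f (P + 3) = V) {s' : List Bool} :
    Rd wU (St f L P) s' ↔ s' = St f L (P + 1) := by
  rw [st_three h, st_four h, h0, h1, h2, h3, chk_spec tickJ_cert]
  simp

theorem tick_W {D : Blk} (hD : D = V ∨ D = J) {P : ℕ} (h : P + 4 ≤ L) (h0 : f P = V)
    (h123 : (f (P + 1) = D ∧ f (P + 2) = V ∧ f (P + 3) = V) ∨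
      (f (P + 1) = V ∧ f (P + 2) = D ∧ f (P + 3) = V) ∨
      (f (P + 1) = V ∧ f (P + 2) = V ∧ f (P + 3) = D)) {s' : List Bool} :
    Rd wU (St f L P) s' ↔ s' = St f L (P + 3) := by
  obtain ⟨c1, c2, c3⟩ := tickW_cert D hD
  rcases h123 with ⟨h1, h2, h3⟩ | ⟨h1, h2, h3⟩ | ⟨h1, h2, h3⟩
  · rw [st_one h, st_four h, h0, h1, h2, h3, chk_spec c1]
    simp
  · rw [st_one h, st_four h, h0, h1, h2, h3, chk_spec c2]
    simp
  · rw [st_one h, st_four h, h0, h1, h2, h3, chk_spec c3]
    simp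

end reading

/-- The special block of the window number `k`. -/
def kd (k : ℕ) : Blk := if k % 3 = 0 then C else if k % 3 = 1 then J else M

/-- The blocks: the window number `k < K` has the block `kd k` at the place `mk k`. -/
def fb (τ K : ℕ) (mk : ℕ → ℕ) (P : ℕ) : Blk :=
  if P / τ < K ∧ P % τ = mk (P / τ) then kd (P / τ) else V

/-- The left word of the window number `k`. -/
def wl (τ k : ℕ) : List Bool :=
  if k % 3 = 1 then wU ++ rp (τ - 3) wA else wT ++ rp (τ - 2) wA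

/-- The left word of the first `k` windows. -/
def pf (τ S0 : ℕ) : ℕ → List Bool
  | 0 => rp S0 wA
  | k + 1 => pf τ S0 k ++ wl τ k

/-- The moves of a token in the window number `k`. -/
def Mvs (mk : ℕ → ℕ) (k d d' : ℕ) : Prop :=
  (d ≠ mk k ∧ d' = d) ∨ (d = mk k ∧ ((k % 3 = 0 ∧ (d' = d ∨ d' + 1 = d)) ∨
    (k % 3 = 1 ∧ d' + 2 = d) ∨ (k % 3 = 2 ∧ d' + 1 = d)))

/-- The slots of the tokens before the window number `k`. -/
def Sl (mk : ℕ → ℕ) (S0 : ℕ) : ℕ → ℕ → Prop
  | 0 => fun d => d = S0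
  | k + 1 => fun d' => ∃ d, Sl mk S0 k d ∧ Mvs mk k d d'

section windows

variable {τ K S0 : ℕ} {mk : ℕ → ℕ}

theorem sl_le (k : ℕ) : ∀ d, Sl mk S0 k d → d ≤ S0 := by
  induction k with
  | zero =>
    intro d h
    exact le_of_eq h
  | succ k ih =>
    rintro d' ⟨d, h, h2⟩
    have := ih d h
    unfold Mvs at h2
    omega

theorem fb_win {k i : ℕ} (hi : i < τ) (hk : k < K) :
    fb τ K mk (k * τ + i) = if i = mk k then kd k else V := by
  have e1 : (k * τ + i) / τ = k := by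
    rw [add_comm, Nat.add_mul_div_right _ _ (by omega), Nat.div_eq_of_lt hi, zero_add]
  have e2 : (k * τ + i) % τ = i := by
    rw [add_comm, Nat.add_mul_mod_self_right, Nat.mod_eq_of_lt hi]
  unfold fb
  rw [e1, e2]
  simp only [hk, true_and]

theorem fb_end {P : ℕ} (hP : K * τ ≤ P) (hτ : 0 < τ) : fb τ K mk P = V := by
  unfold fb
  have : K ≤ P / τ := by
    rw [Nat.le_div_iff_mul_le hτ]
    exact hP
  rw [if_neg (by omega)]

/-- A window. -/
theorem rd_window (hτ : S0 + 4 ≤ τ) (hm : ∀ k, 1 ≤ mk k ∧ (k % 3 = 1 → 2 ≤ mk k))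
    {k d : ℕ} (hk : k < K) (hd : d ≤ S0) {s' : List Bool} :
    Rd (wl τ k) (St (fb τ K mk) ((K + 1) * τ) (k * τ + d)) s' ↔
      ∃ d', Mvs mk k d d' ∧ s' = St (fb τ K mk) ((K + 1) * τ) ((k + 1) * τ + d') := by
  set f := fb τ K mk with hf
  set L := (K + 1) * τ with hL
  have hKL : k * τ + τ + τ ≤ L := by
    have : (k + 2) * τ ≤ (K + 1) * τ := Nat.mul_le_mul_right _ (by omega)
    rw [hL]
    linarith [this]
  have hV : f (L - 1) = V := by
    apply fb_end _ (by omega)
    rw [hL, add_mul]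
    omega
  have hP4 : k * τ + d + 4 ≤ L := by omega
  have g0 := fb_win (mk := mk) (i := d) (by omega : d < τ) hk
  have g1 := fb_win (mk := mk) (i := d + 1) (by omega : d + 1 < τ) hk
  have g2 := fb_win (mk := mk) (i := d + 2) (by omega : d + 2 < τ) hk
  have g3 := fb_win (mk := mk) (i := d + 3) (by omega : d + 3 < τ) hk
  simp only [← add_assoc, ← hf] at g0 g1 g2 g3
  obtain ⟨m1, m2⟩ := hm k
  have hid : ∀ n c P, P ≤ L → P + n ≤ L → P + n = (k + 1) * τ + c →
      (∀ s', Rd (rp n wA) (St f L P) s' ↔ s' = St f L ((k + 1) * τ + c)) := by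
    intro n c P h1 h2 h3 s'
    rw [rd_idles hV h1, h3]
    simp only [and_iff_right_iff_imp]
    intro _
    omega
  have e1 : (k + 1) * τ = k * τ + τ := by ring
  by_cases hmk : d = mk k
  · -- the special block
    rw [if_pos hmk] at g0
    rw [if_neg (by omega)] at g1 g2 g3
    by_cases hk0 : k % 3 = 0
    · have hkd : kd k = C := by unfold kd; rw [if_pos hk0]
      rw [hkd] at g0
      unfold wl
      rw [if_neg (by omega), rd_append]
      have a1 := hid (τ - 2) (d - 1) (k * τ + d + 1) (by omega) (by omega) (by omega)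
      have a2 := hid (τ - 2) d (k * τ + d + 2) (by omega) (by omega) (by omega)
      constructor
      · rintro ⟨m, h1, h2⟩
        rcases (tick_C hP4 g0 g1 g2 g3).1 h1 with rfl | rfl
        · rw [a1] at h2
          exact ⟨d - 1, Or.inr ⟨hmk, Or.inl ⟨hk0, Or.inr (by omega)⟩⟩, h2⟩
        · rw [a2] at h2
          exact ⟨d, Or.inr ⟨hmk, Or.inl ⟨hk0, Or.inl rfl⟩⟩, h2⟩
      · rintro ⟨d', h1, rfl⟩
        unfold Mvs at h1
        have h2 : d' = d ∨ d' = d - 1 := by omega
        rcases h2 with rfl | rfl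
        · exact ⟨_, (tick_C hP4 g0 g1 g2 g3).2 (Or.inr rfl), (a2 _).2 rfl⟩
        · exact ⟨_, (tick_C hP4 g0 g1 g2 g3).2 (Or.inl rfl), (a1 _).2 rfl⟩
    · by_cases hk1 : k % 3 = 1
      · have hkd : kd k = J := by unfold kd; rw [if_neg hk0, if_pos hk1]
        rw [hkd] at g0
        unfold wl
        rw [if_pos hk1, rd_append]
        have a1 := hid (τ - 3) (d - 2) (k * τ + d + 1) (by omega) (by omega) (by omega)
        constructor
        · rintro ⟨m, h1, h2⟩
          have h3 := (tick_J hP4 g0 g1 g2 g3).1 h1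
          subst h3
          rw [a1] at h2
          exact ⟨d - 2, Or.inr ⟨hmk, Or.inr (Or.inl ⟨hk1, by omega⟩)⟩, h2⟩
        · rintro ⟨d', h1, rfl⟩
          unfold Mvs at h1
          have h2 : d' = d - 2 := by omega
          subst h2
          exact ⟨_, (tick_J hP4 g0 g1 g2 g3).2 rfl, (a1 _).2 rfl⟩
      · have hkd : kd k = M := by unfold kd; rw [if_neg hk0, if_neg hk1]
        rw [hkd] at g0
        unfold wl
        rw [if_neg hk1, rd_append]
        have a1 := hid (τ - 2) (d - 1) (k * τ + d + 1) (by omega) (by omega) (by omega)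
        constructor
        · rintro ⟨m, h1, h2⟩
          have h3 := (tick_M hP4 g0 g1 g2 g3).1 h1
          subst h3
          rw [a1] at h2
          exact ⟨d - 1, Or.inr ⟨hmk, Or.inr (Or.inr ⟨by omega, by omega⟩)⟩, h2⟩
        · rintro ⟨d', h1, rfl⟩
          unfold Mvs at h1
          have h2 : d' = d - 1 := by omega
          subst h2
          exact ⟨_, (tick_M hP4 g0 g1 g2 g3).2 rfl, (a1 _).2 rfl⟩
  · -- no move
    rw [if_neg hmk] at g0
    have h123 : ∃ D, (D = V ∨ D = kd k) ∧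
        ((f (k * τ + d + 1) = D ∧ f (k * τ + d + 2) = V ∧ f (k * τ + d + 3) = V) ∨
        (f (k * τ + d + 1) = V ∧ f (k * τ + d + 2) = D ∧ f (k * τ + d + 3) = V) ∨
        (f (k * τ + d + 1) = V ∧ f (k * τ + d + 2) = V ∧ f (k * τ + d + 3) = D)) := by
      by_cases b1 : d + 1 = mk k
      · rw [if_pos b1] at g1
        rw [if_neg (by omega)] at g2 g3
        exact ⟨kd k, Or.inr rfl, Or.inl ⟨g1, g2, g3⟩⟩
      · by_cases b2 : d + 2 = mk k
        · rw [if_pos b2] at g2
          rw [if_neg (by omega)] at g1 g3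
          exact ⟨kd k, Or.inr rfl, Or.inr (Or.inl ⟨g1, g2, g3⟩)⟩
        · by_cases b3 : d + 3 = mk k
          · rw [if_pos b3] at g3
            rw [if_neg (by omega)] at g1 g2
            exact ⟨kd k, Or.inr rfl, Or.inr (Or.inr ⟨g1, g2, g3⟩)⟩
          · rw [if_neg (by omega)] at g1 g2 g3
            exact ⟨V, Or.inl rfl, Or.inl ⟨g1, g2, g3⟩⟩
    obtain ⟨D, hD, h123⟩ := h123
    by_cases hk1 : k % 3 = 1
    · have hkd : kd k = J := by unfold kd; rw [if_neg (by omega), if_pos hk1]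
      rw [hkd] at hD
      unfold wl
      rw [if_pos hk1, rd_append]
      have a1 := hid (τ - 3) d (k * τ + d + 3) (by omega) (by omega) (by omega)
      constructor
      · rintro ⟨m, h1, h2⟩
        have h3 := (tick_W hD hP4 g0 h123).1 h1
        subst h3
        rw [a1] at h2
        exact ⟨d, Or.inl ⟨hmk, rfl⟩, h2⟩
      · rintro ⟨d', h1, rfl⟩
        unfold Mvs at h1
        have h2 : d' = d := by omega
        subst h2
        exact ⟨_, (tick_W hD hP4 g0 h123).2 rfl, (a1 _).2 rfl⟩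
    · have hD' : D = V ∨ D = C ∨ D = M := by
        rcases hD with h | h
        · exact Or.inl h
        · unfold kd at h
          rw [if_neg hk1] at h
          split_ifs at h
          · exact Or.inr (Or.inl h)
          · exact Or.inr (Or.inr h)
      unfold wl
      rw [if_neg hk1, rd_append]
      have a1 := hid (τ - 2) d (k * τ + d + 2) (by omega) (by omega) (by omega)
      constructor
      · rintro ⟨m, h1, h2⟩
        have h3 := (tick_V hD' hP4 g0 h123).1 h1
        subst h3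
        rw [a1] at h2
        exact ⟨d, Or.inl ⟨hmk, rfl⟩, h2⟩
      · rintro ⟨d', h1, rfl⟩
        unfold Mvs at h1
        have h2 : d' = d := by omega
        subst h2
        exact ⟨_, (tick_V hD' hP4 g0 h123).2 rfl, (a1 _).2 rfl⟩

theorem rd_pf (hτ : S0 + 4 ≤ τ) (hm : ∀ k, 1 ≤ mk k ∧ (k % 3 = 1 → 2 ≤ mk k)) (k : ℕ) :
    k ≤ K → ∀ s', Rd (pf τ S0 k) (St (fb τ K mk) ((K + 1) * τ) 0) s' ↔
      ∃ d, Sl mk S0 k d ∧ s' = St (fb τ K mk) ((K + 1) * τ) (k * τ + d) := by
  have hV : fb τ K mk ((K + 1) * τ - 1) = V := by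
    apply fb_end _ (by omega)
    rw [add_mul]
    omega
  have hL0 : S0 ≤ (K + 1) * τ := by
    have : 1 * τ ≤ (K + 1) * τ := Nat.mul_le_mul_right _ (by omega)
    omega
  induction k with
  | zero =>
    intro _ s'
    show Rd (rp S0 wA) _ _ ↔ _
    rw [rd_idles hV (Nat.zero_le _)]
    simp only [zero_add, zero_mul, hL0, true_and, Sl, exists_eq_left]
  | succ k ih =>
    intro hk s'
    show Rd (pf τ S0 k ++ wl τ k) _ _ ↔ _
    rw [rd_append]
    constructor
    · rintro ⟨m, h1, h2⟩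
      obtain ⟨d, h3, rfl⟩ := (ih (by omega) m).1 h1
      obtain ⟨d', h4, h5⟩ := (rd_window hτ hm (by omega) (sl_le _ _ h3)).1 h2
      exact ⟨d', ⟨d, h3, h4⟩, h5⟩
    · rintro ⟨d', ⟨d, h3, h4⟩, h5⟩
      exact ⟨_, (ih (by omega) _).2 ⟨d, h3, rfl⟩,
        (rd_window hτ hm (by omega) (sl_le _ _ h3)).2 ⟨d', h4, h5⟩⟩

theorem rd_all (hτ : S0 + 4 ≤ τ) (hm : ∀ k, 1 ≤ mk k ∧ (k % 3 = 1 → 2 ≤ mk k)) :
    Rd (pf τ S0 K ++ rp τ wA) (St (fb τ K mk) ((K + 1) * τ) 0) [] ↔ Sl mk S0 K 0 := by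
  have hV : fb τ K mk ((K + 1) * τ - 1) = V := by
    apply fb_end _ (by omega)
    rw [add_mul]
    omega
  rw [rd_append]
  have e1 : (K + 1) * τ = K * τ + τ := by ring
  constructor
  · rintro ⟨m, h1, h2⟩
    obtain ⟨d, h3, rfl⟩ := (rd_pf hτ hm K le_rfl m).1 h1
    have hd := sl_le _ _ h3
    rw [rd_idles hV (by omega)] at h2
    have : d = 0 := by omega
    subst this
    exact h3
  · intro h
    refine ⟨_, (rd_pf hτ hm K le_rfl _).2 ⟨0, h, rfl⟩, ?_⟩
    rw [rd_idles hV (by omega)]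
    exact ⟨by omega, by rw [st_ge (by omega)]⟩

end windows

end Pool.Agent.Helper75.Lin4
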